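import Pool.Agent.helper54.UG.Spec

/-! # Row ug:COM -/

set_option autoImplicit false

namespace Pool.Agent.UG

open Matrix Pool.Agent.H48SL

theorem COM : COM_stmt := by
  classical
  intro n hn 𝔞 h𝔞
  have hex : ∃ N : ℕ, ∀ l : List (MQ n), (∀ X ∈ l, X ∈ 𝔞) → N ≤ l.length → l.prod = 0 := h𝔞
  have hspec := Nat.find_spec hex
  have hmin := fun m => Nat.find_min (H := hex) (m := m)
  have hne : Nonempty (Fin n) := ⟨⟨0, hn⟩⟩
  obtain ⟨k, hk⟩ : ∃ k, Nat.find hex = k + 1 := by
    rcases Nat.eq_zero_or_pos (Nat.find hex) with h | h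
    · exfalso
      rw [h] at hspec
      have h1 := hspec [] (fun X hX => by simp at hX) (Nat.zero_le _)
      rw [List.prod_nil] at h1
      exact one_ne_zero h1
    · exact ⟨Nat.find hex - 1, by omega⟩
  have h2 := hmin k (by omega)
  push Not at h2
  obtain ⟨l, hl, hlen, hP⟩ := h2
  have h3 : ∀ X ∈ 𝔞, X * l.prod = 0 := by
    intro X hX
    have h4 := hspec (X :: l) (by
      intro Y hY
      rcases List.mem_cons.1 hY with h5 | h5
      · rw [h5]
        exact hX
      · exact hl Y h5) (by rw [hk, List.length_cons]; omega)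
    rwa [List.prod_cons] at h4
  obtain ⟨i, j, hij⟩ : ∃ i j, l.prod i j ≠ 0 := by
    by_contra hcon
    push Not at hcon
    exact hP (Matrix.ext fun i j => hcon i j)
  refine ⟨l.prod *ᵥ Pi.single j 1, ?_, ?_⟩
  · intro h0
    apply hij
    have h5 := congrFun h0 i
    rw [Matrix.mulVec_single_one] at h5
    exact h5
  · intro X hX
    rw [Matrix.mulVec_mulVec, h3 X hX, Matrix.zero_mulVec]

end Pool.Agent.UG
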